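import Pool.Agent.H547_as.Basic

/-!
# Systems of algebraic classes of Gauss sum type

The consequences of the parity theorem for the set of the algebraic classes.
-/

set_option autoImplicit false

namespace Pool.Agent.H547_d

open Finset Pool.Agent.H916R2 Pool.Agent.H916T Pool.Agent.H916Z Pool.Agent.H547_as

section

variable {p m : ℕ}

open scoped Classical in
/-- the parities of the numbers of the elements of the classes of linked residues agree -/
def SamePar (p : ℕ) {m : ℕ} (s s' : Multiset (ZMod m)) : Prop :=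
  ∀ a : ZMod m, (Even (s.countP (fun b => Relation.EqvGen (Link p) a b)) ↔
    Even (s'.countP (fun b => Relation.EqvGen (Link p) a b)))

open scoped Classical in
lemma samePar_map {f : ZMod m → ZMod m} {s : Multiset (ZMod m)} (h0 : (0 : ZMod m) ∉ s)
    (hf : ∀ a : ZMod m, a ≠ 0 → Link p (f a) a) : SamePar p (s.map f) s := by
  intro a
  have h1 : (s.map f).countP (fun b => Relation.EqvGen (Link p) a b) =
      s.countP (fun b => Relation.EqvGen (Link p) a b) := by
    rw [Multiset.countP_map, ← Multiset.countP_eq_card_filter]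
    refine Multiset.countP_congr rfl fun b hb => propext ?_
    have hb0 : b ≠ 0 := fun h => h0 (h ▸ hb)
    have h2 : Relation.EqvGen (Link p) (f b) b := Relation.EqvGen.rel _ _ (hf b hb0)
    exact ⟨fun h => h.trans _ _ _ h2, fun h => h.trans _ _ _ (Relation.EqvGen.symm _ _ h2)⟩
  rw [h1]

lemma addOrderOf_unit_mul [NeZero m] (t : (ZMod m)ˣ) (a : ZMod m) :
    addOrderOf ((t : ZMod m) * a) = addOrderOf a := by
  have h1 : ∀ k : ℕ, k • ((t : ZMod m) * a) = 0 ↔ k • a = 0 := by
    intro k
    rw [nsmul_eq_mul, nsmul_eq_mul, mul_left_comm]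
    exact t.isUnit.mul_right_eq_zero
  apply Nat.dvd_antisymm
  · rw [addOrderOf_dvd_iff_nsmul_eq_zero, h1]
    exact addOrderOf_nsmul_eq_zero a
  · rw [addOrderOf_dvd_iff_nsmul_eq_zero, ← h1]
    exact addOrderOf_nsmul_eq_zero _

lemma link_unit [NeZero m] (t : (ZMod m)ˣ) {a : ZMod m} (ha : a ≠ 0) :
    Link p ((t : ZMod m) * a) a :=
  ⟨fun h => ha ((t.isUnit.mul_right_eq_zero).mp h), ha,
    Or.inl (by rw [addOrderOf_unit_mul])⟩

lemma rel0_unit {s : Multiset (ZMod m)} (t : (ZMod m)ˣ) (hs : Rel0 p s) :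
    Rel0 p (s.map fun a => (t : ZMod m) * a) := by
  intro u
  have h1 := hs (u * t)
  rw [Multiset.map_map]
  rw [← h1]
  congr 1
  refine Multiset.map_congr rfl fun a _ => ?_
  simp only [Function.comp_apply, Units.val_mul]
  rw [mul_assoc]

end

end Pool.Agent.H547_d
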