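import Pool.Agent.H547_d.Core

/-!
# Systems of algebraic classes of Gauss sum type: definitions
-/

set_option autoImplicit false

namespace Pool.Agent.H547_d

open Finset Pool.Agent.H916T

/-- A multiset `s` of an even number of nonzero residues modulo `m`, such that for every unit `t`
modulo `m` the representatives in `{1, ..., m - 1}` of the residues `p ^ j * t * a`, where `a ∈ s` and
`0 ≤ j < f`, `f` being the order of `p` modulo `m`, add up to `f * m * |s| / 2`: the product of the
corresponding Gauss sums is a root of unity times a power of `p`. -/
def IsGaussTate (p m : ℕ) (s : Multiset (ZMod m)) : Prop :=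
  (0 : ZMod m) ∉ s ∧ Even (Multiset.card s) ∧
    ∀ t : (ZMod m)ˣ,
      2 * ∑ j ∈ Finset.range (orderOf (p : ZMod m)),
          (s.map fun a => ((p : ZMod m) ^ j * ((t : ZMod m) * a)).val).sum =
        orderOf (p : ZMod m) * (m * Multiset.card s)

/-- The set of the algebraic characters in characteristic `p`, for one Weil cohomology theory with
coefficients in an algebraically closed field `K`, as a family of sets of multisets `s` of residues
modulo `m`, for all `m` prime to `p`: the product over `a ∈ s` of the lines in the first cohomology of
the curves `y ^ p - y = x ^ m` on which the group of the `m`-th roots of unity acts by its character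
number `a` (and the group of the translations by a fixed nontrivial character) is contained in the
`K`-span of the classes of algebraic cycles on the product of these curves. The fields of the structure
are known theorems. -/
structure CycleSystem (p : ℕ) where
  /-- the algebraic characters -/
  Alg : (m : ℕ) → Multiset (ZMod m) → Prop
  /-- Algebraic classes are Tate classes (Stickelberger's theorem describes them). -/
  isTate : ∀ {m : ℕ} {s : Multiset (ZMod m)}, 0 < m → p.Coprime m → Alg m s → IsGaussTate p m s
  /-- The class of a point of a point. -/
  empty : ∀ {m : ℕ}, 0 < m → p.Coprime m → Alg m 0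
  /-- Tate's theorem for products of two curves. -/
  pair : ∀ {m : ℕ} {s : Multiset (ZMod m)}, 0 < m → p.Coprime m → IsGaussTate p m s →
    Multiset.card s = 2 → Alg m s
  /-- The Tate conjecture for Fermat surfaces (Tate, Shioda, Katsura). -/
  surface : ∀ {m : ℕ} {s : Multiset (ZMod m)}, 0 < m → p.Coprime m → SurfaceTate p m s → Alg m s
  /-- The standard cycles (Aoki, Shioda). -/
  standard : ∀ {m q : ℕ} {s : Multiset (ZMod m)}, 0 < m → p.Coprime m → q.Prime → q ∣ m →
    Standard q m s → Alg m s
  /-- External products. -/
  join : ∀ {m : ℕ} {s t : Multiset (ZMod m)}, 0 < m → p.Coprime m → Alg m s → Alg m t →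
    Alg m (s + t)
  /-- Contraction of dual lines. -/
  cancel : ∀ {m : ℕ} {s : Multiset (ZMod m)} (a : ZMod m), 0 < m → p.Coprime m →
    Alg m (a ::ₘ -a ::ₘ s) → Alg m s
  /-- Pull back and push forward for the map `x ↦ x ^ N` between the curves. -/
  raise : ∀ {m N : ℕ} {s : Multiset (ZMod m)}, 0 < m → p.Coprime m → 0 < N → p.Coprime N →
    (Alg (N * m) (s.map fun a => ((N * a.val : ℕ) : ZMod (N * m))) ↔ Alg m s)

/-- The data of a variety with an eigenbasis of its cohomology of Gauss sum type: the index set `B` of
the basis, the multiset of residues modulo `m` which belongs to each basis vector, and the duality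
given by the cup product. -/
structure EigenVariety (m : ℕ) where
  /-- the indices of the basis vectors -/
  B : Type
  [fintype : Fintype B]
  /-- the residues -/
  res : B → Multiset (ZMod m)
  /-- the index of the dual basis vector -/
  dual : B → B
  dual_dual : ∀ b, dual (dual b) = b
  res_dual : ∀ b, res (dual b) = (res b).map Neg.neg

attribute [instance] EigenVariety.fintype

variable {p : ℕ}

/-- The standard conjecture D for a variety with an eigenbasis of its cohomology `X.B → K`: let `C` be
the set of the classes of the algebraic cycles with rational coefficients, whose `K`-span is spanned by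
the basis vectors the residues of which form an algebraic character. Then every class in `C` which is
orthogonal to `C` is zero. -/
def StandardD (S : CycleSystem p) {m : ℕ} (X : EigenVariety m) : Prop :=
  ∀ (K : Type) [Field K] [CharZero K] (ε : X.B → K), (∀ b, ε b ≠ 0) →
    ∀ C : Submodule ℚ (X.B → K),
      (∀ x : X.B → K, x ∈ Submodule.span K (C : Set (X.B → K)) ↔
        ∀ b, x b ≠ 0 → S.Alg m (X.res b)) →
      ∀ x ∈ C, (∀ y ∈ C, ∑ b, ε b * x b * y (X.dual b) = 0) → x = 0

end Pool.Agent.H547_d
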