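import Pool.Agent.H547_d.Defs

/-!
# Systems of algebraic classes of Gauss sum type: the main theorem
-/

set_option autoImplicit false

namespace Pool.Agent.H547_d

open Finset Pool.Agent.H916R2 Pool.Agent.H916T Pool.Agent.H916Z Pool.Agent.H547_as

variable {p m : ℕ}

lemma rel0_iff [NeZero m] (hpm : p.Coprime m) {s : Multiset (ZMod m)}
    (h0 : (0 : ZMod m) ∉ s) :
    Rel0 p s ↔ ∀ t : (ZMod m)ˣ,
      2 * ∑ j ∈ Finset.range (orderOf (p : ZMod m)),
          (s.map fun a => ((p : ZMod m) ^ j * ((t : ZMod m) * a)).val).sum =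
        orderOf (p : ZMod m) * (m * Multiset.card s) := by
  unfold Rel0
  refine forall_congr' fun t => ?_
  rw [val_sum_eq hpm s h0 t, sub_eq_zero]
  exact Nat.cast_inj

lemma gt_iff [NeZero m] (hpm : p.Coprime m) {s : Multiset (ZMod m)} :
    IsGaussTate p m s ↔ (0 : ZMod m) ∉ s ∧ Even (Multiset.card s) ∧ Rel0 p s :=
  ⟨fun h => ⟨h.1, h.2.1, (rel0_iff hpm h.1).mpr h.2.2⟩,
    fun h => ⟨h.1, h.2.1, (rel0_iff hpm h.1).mp h.2.2⟩⟩

lemma isGaussTate_of_isTate {s : Multiset (ZMod m)} (h : IsTate p m s) : IsGaussTate p m s :=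
  ⟨h.1, h.2.1, h.2.2.2⟩

lemma rel0_neg [NeZero m] {s : Multiset (ZMod m)} (h : Rel0 p s) : Rel0 p (s.map Neg.neg) := by
  intro t
  rw [Multiset.map_map]
  have h1 : (s.map ((fun a => W p ((t : ZMod m) * a)) ∘ Neg.neg)) =
      s.map fun a => - W p ((t : ZMod m) * a) := by
    refine Multiset.map_congr rfl fun a _ => ?_
    rw [Function.comp_apply, mul_neg, W_neg]
  rw [h1, Multiset.sum_map_neg, h t, neg_zero]

lemma rel0_pair [NeZero m] (a : ZMod m) : Rel0 p ({a, -a} : Multiset (ZMod m)) := by
  intro t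
  simp only [Multiset.insert_eq_cons, Multiset.map_cons, Multiset.map_singleton,
    Multiset.sum_cons, Multiset.sum_singleton, mul_neg, W_neg]
  ring

/-- everything in the closure is algebraic -/
lemma alg_of_generated (S : CycleSystem p) (hm : 0 < m) (hpm : p.Coprime m)
    {t : Multiset (ZMod m)} (h : H916T.Generated m (GBase p m) t) : S.Alg m t := by
  have hz : NeZero m := ⟨hm.ne'⟩
  induction h with
  | ofBase s hs =>
    rcases hs with ⟨h1, h2, h3⟩ | h
    · exact S.pair hm hpm ((gt_iff hpm).mpr ⟨h1, by rw [h2]; exact even_two, h3⟩) h2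
    · rcases h with h | ⟨q, hq, hqm, h⟩
      · exact S.surface hm hpm h
      · exact S.standard hm hpm hq hqm h
  | pair a ha =>
    refine S.pair hm hpm ((gt_iff hpm).mpr ⟨?_, by simp, rel0_pair a⟩) (by simp)
    simp only [Multiset.insert_eq_cons, Multiset.mem_cons, Multiset.mem_singleton, not_or]
    exact ⟨ha.symm, fun h => ha (neg_eq_zero.mp h.symm)⟩
  | join s t _ _ ih1 ih2 => exact S.join hm hpm ih1 ih2
  | cancel a s _ ih => exact S.cancel a hm hpm ih

lemma cancel_all (S : CycleSystem p) (hm : 0 < m) (hpm : p.Coprime m) (v : Multiset (ZMod m)) :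
    ∀ x : Multiset (ZMod m), S.Alg m (x + v + v.map Neg.neg) → S.Alg m x := by
  induction v using Multiset.induction_on with
  | empty => intro x h; simpa using h
  | cons a v ih =>
    intro x h
    apply ih
    apply S.cancel a hm hpm
    rw [Multiset.map_cons] at h
    convert h using 1
    simp only [← Multiset.singleton_add]
    abel

/-- **Whether a Tate class is algebraic depends only on parities.** -/
theorem alg_of_samePar (hp : p.Prime) (hm : 0 < m) (hpm : p.Coprime m) (S : CycleSystem p)
    {s s' : Multiset (ZMod m)} (hs' : IsGaussTate p m s') (h : SamePar p s s')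
    (hA : S.Alg m s) : S.Alg m s' := by
  classical
  have hz : NeZero m := ⟨hm.ne'⟩
  have hs := (gt_iff hpm).mp (S.isTate hm hpm hA)
  have hs1 := (gt_iff hpm).mp hs'
  have hneg : SamePar p (s.map Neg.neg) s := samePar_map hs.1 fun a ha => H547_pp.link_neg ha
  by_cases hu : s' + s.map Neg.neg = 0
  · have h1 := congrArg Multiset.card hu
    rw [Multiset.card_add, Multiset.card_zero] at h1
    have h2 : Multiset.card s' = 0 := by omega
    rw [Multiset.card_eq_zero] at h2
    rw [h2]
    exact S.empty hm hpm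
  have hgen := gauss_parity (s := s' + s.map Neg.neg) hp hm hpm ?_ ?_ ?_ hu ?_
  · obtain ⟨N, hN, hpN, H⟩ := hgen
    have hNm : 0 < N * m := Nat.mul_pos hN hm
    have hpNm : p.Coprime (N * m) := Nat.Coprime.mul_right hpN hpm
    have h1 := alg_of_generated S hNm hpNm (H (N * m) rfl)
    have h2 : S.Alg (N * m) (s.map (iota N : ZMod m → ZMod (N * m))) :=
      (S.raise hm hpm hN hpN).mpr hA
    have h3 := S.join hNm hpNm h1 h2
    refine (S.raise (s := s') hm hpm hN hpN).mp ?_
    apply cancel_all S hNm hpNm (s.map (iota N : ZMod m → ZMod (N * m)))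
    convert h3 using 1
    rw [Multiset.map_add, Multiset.map_map, Multiset.map_map]
    have h4 : s.map (Neg.neg ∘ (iota N : ZMod m → ZMod (N * m))) =
        s.map ((iota N : ZMod m → ZMod (N * m)) ∘ Neg.neg) := by
      refine Multiset.map_congr rfl fun a _ => ?_
      rw [Function.comp_apply, Function.comp_apply, iota_neg rfl]
    rw [h4]
    have h5 : (s'.map fun a => ((N * a.val : ℕ) : ZMod (N * m))) =
        s'.map (iota N : ZMod m → ZMod (N * m)) := rfl
    rw [h5]
    abel
  · rw [Multiset.mem_add, not_or]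
    refine ⟨hs1.1, fun h0 => ?_⟩
    obtain ⟨a, ha, ha0⟩ := Multiset.mem_map.mp h0
    rw [neg_eq_zero.mp ha0] at ha
    exact hs.1 ha
  · rw [Multiset.card_add, Multiset.card_map]
    exact hs1.2.1.add hs.2.1
  · exact hs1.2.2.add (rel0_neg hs.2.2)
  · intro a
    rw [Multiset.countP_add, Nat.even_add]
    exact ((h a).symm.trans (hneg a).symm)

lemma samePar_symm {s s' : Multiset (ZMod m)} (h : SamePar p s s') : SamePar p s' s :=
  fun a => (h a).symm

/-- the algebraic characters are stable under the units -/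
theorem alg_unit (hp : p.Prime) (hm : 0 < m) (hpm : p.Coprime m) (S : CycleSystem p)
    {s : Multiset (ZMod m)} (hA : S.Alg m s) (t : (ZMod m)ˣ) :
    S.Alg m (s.map fun a => (t : ZMod m) * a) := by
  have hz : NeZero m := ⟨hm.ne'⟩
  have hs := (gt_iff hpm).mp (S.isTate hm hpm hA)
  refine alg_of_samePar hp hm hpm S ((gt_iff hpm).mpr ⟨?_, ?_, rel0_unit t hs.2.2⟩)
    (samePar_symm (samePar_map hs.1 fun a ha => link_unit t ha)) hA
  · intro h0
    obtain ⟨a, ha, ha0⟩ := Multiset.mem_map.mp h0
    rw [(t.isUnit.mul_right_eq_zero).mp ha0] at ha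
    exact hs.1 ha
  · rw [Multiset.card_map]
    exact hs.2.1

theorem alg_neg (hp : p.Prime) (hm : 0 < m) (hpm : p.Coprime m) (S : CycleSystem p)
    {s : Multiset (ZMod m)} (hA : S.Alg m s) : S.Alg m (s.map Neg.neg) := by
  have h := alg_unit hp hm hpm S hA (-1)
  convert h using 1
  refine Multiset.map_congr rfl fun a _ => ?_
  simp

/-- the double of every Tate character is algebraic -/
theorem alg_double (hp : p.Prime) (hm : 0 < m) (hpm : p.Coprime m) (S : CycleSystem p)
    {s : Multiset (ZMod m)} (hs : IsGaussTate p m s) : S.Alg m (s + s) := by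
  classical
  have hz : NeZero m := ⟨hm.ne'⟩
  have hs := (gt_iff hpm).mp hs
  refine alg_of_samePar hp hm hpm S ((gt_iff hpm).mpr ⟨?_, ?_, hs.2.2.add hs.2.2⟩) ?_
    (S.empty hm hpm)
  · rw [Multiset.mem_add, not_or]
    exact ⟨hs.1, hs.1⟩
  · rw [Multiset.card_add]
    exact hs.2.1.add hs.2.1
  · intro a
    rw [Multiset.countP_add, Multiset.countP_zero]
    exact iff_of_true Even.zero (Even.add_self _)

/-- **The standard conjecture D.** -/
theorem standardD (hp : p.Prime) (hm : 0 < m) (hpm : p.Coprime m) (S : CycleSystem p)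
    (X : EigenVariety m) : StandardD S X := by
  classical
  intro K _ _ ε hε C hC x hx hxC
  have key : ∀ y ∈ Submodule.span K (C : Set (X.B → K)), ∑ b, ε b * x b * y (X.dual b) = 0 := by
    intro y hy
    induction hy using Submodule.span_induction with
    | mem y hy => exact hxC y hy
    | zero => simp
    | add y z _ _ hy hz =>
      simp only [Pi.add_apply, mul_add, sum_add_distrib]
      rw [hy, hz, add_zero]
    | smul c y _ hy =>
      have h1 : ∑ b, ε b * x b * (c • y) (X.dual b) = c * ∑ b, ε b * x b * y (X.dual b) := by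
        rw [mul_sum]
        refine sum_congr rfl fun b _ => ?_
        simp only [Pi.smul_apply, smul_eq_mul]
        ring
      rw [h1, hy, mul_zero]
  have hdinj : Function.Injective X.dual := fun a b h => by
    rw [← X.dual_dual a, ← X.dual_dual b, h]
  funext b
  by_contra hb
  have hA : S.Alg m (X.res b) := (hC x).mp (Submodule.subset_span hx) b hb
  have hA' : S.Alg m (X.res (X.dual b)) := by
    rw [X.res_dual]
    exact alg_neg hp hm hpm S hA
  have hy : (Pi.single (X.dual b) (1 : K) : X.B → K) ∈ Submodule.span K (C : Set (X.B → K)) := by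
    rw [hC]
    intro b' hb'
    have h1 : b' = X.dual b := by
      by_contra hne
      exact hb' (Pi.single_eq_of_ne hne 1)
    rw [h1]
    exact hA'
  have h2 := key _ hy
  rw [sum_eq_single b] at h2
  · rw [Pi.single_eq_same, mul_one] at h2
    exact (mul_ne_zero (hε b) hb) h2
  · intro b' _ hne
    rw [Pi.single_eq_of_ne (fun h => hne (hdinj h)), mul_zero]
  · intro h
    exact absurd (mem_univ b) h

end Pool.Agent.H547_d
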