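import Pool.Agent.H547_d.Sign
import Pool.Agent.H547_as.PrimePow

/-!
# Degrees for which all signs are positive
-/

set_option autoImplicit false

namespace Pool.Agent.H547_d

open Finset Pool.Agent.H916R2 Pool.Agent.H916T Pool.Agent.H916Z Pool.Agent.H547_as
  Pool.Agent.H547_pp

variable {p m : ℕ}

lemma sign_of_gconcl (hm : 0 < m) (hpm : p.Coprime m) {S : CycleSystem p} (σ : SignSystem S)
    {s : Multiset (ZMod m)} (hA : S.Alg m s) (h : GConcl p m s) : σ.sign m s = 1 := by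
  obtain ⟨N, hN, hpN, H⟩ := h
  rw [← σ.raise hm hpm hN hpN hA]
  exact sign_of_generated σ (Nat.mul_pos hN hm) (Nat.Coprime.mul_right hpN hpm) (H (N * m) rfl)

lemma sign_of_concl (hm : 0 < m) (hpm : p.Coprime m) {S : CycleSystem p} (σ : SignSystem S)
    {s : Multiset (ZMod m)} (hA : S.Alg m s) (h : H916Y.Concl p m s) : σ.sign m s = 1 := by
  obtain ⟨N, hN, hpN, H⟩ := h
  exact sign_of_gconcl hm hpm σ hA ⟨N, hN, hpN, fun M hM =>
    H916Z.generated_mono (fun t ht => Or.inr ht) (H M hM)⟩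

/-- The prime divisors of `m` are `2`, `a` or `b`. -/
def PrimesAre (m a b : ℕ) : Prop := ∀ r : ℕ, r.Prime → r ∣ m → r = 2 ∨ r = a ∨ r = b

lemma PrimesAre.mul {m K a b : ℕ} (h : PrimesAre m a b) (hK : ∀ q, q.Prime → q ∣ K → q ∣ m) :
    PrimesAre (K * m) a b := by
  intro q hq hqd
  exact h q hq ((hq.dvd_mul.mp hqd).elim (hK q hq) id)

/-- residues of even order are linked, and so are residues changed into their negatives -/
lemma one_class (hm : 0 < m) (h : ∃ K : ℕ, m / 2 ^ m.factorization 2 ∣ p ^ K + 1) {a b : ZMod m}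
    (ha : a ≠ 0) (hb : b ≠ 0) : Relation.EqvGen (Link p) a b := by
  have hz : NeZero m := ⟨hm.ne'⟩
  obtain ⟨K, hK⟩ := h
  have hodd : ∀ c : ZMod m, ¬ 2 ∣ addOrderOf c → Opp p c := by
    intro c hc
    refine ⟨K, Dvd.dvd.trans ?_ hK⟩
    have h3 : addOrderOf c ∣ 2 ^ m.factorization 2 * (m / 2 ^ m.factorization 2) := by
      rw [Nat.ordProj_mul_ordCompl_eq_self]
      exact addOrderOf_dvd_level c
    have h4 : (addOrderOf c).Coprime (2 ^ m.factorization 2) :=
      Nat.Coprime.pow_right _ ((Nat.prime_two.coprime_iff_not_dvd.mpr hc).symm)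
    exact h4.dvd_of_dvd_mul_left h3
  by_cases hme : 2 ∣ m
  · obtain ⟨k, hk⟩ := hme
    have h0 : ((k : ℕ) : ZMod m) ≠ 0 := by
      intro h0
      rw [ZMod.natCast_eq_zero_iff] at h0
      have := Nat.le_of_dvd (by omega) h0
      omega
    have h2 : addOrderOf ((k : ℕ) : ZMod m) = 2 := by
      refine addOrderOf_eq_prime ?_ h0
      rw [nsmul_eq_mul]
      have : ((2 * k : ℕ) : ZMod m) = 0 := by
        rw [ZMod.natCast_eq_zero_iff]
        exact ⟨1, by omega⟩
      push_cast at this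
      exact_mod_cast this
    have hop : Opp p ((k : ℕ) : ZMod m) := ⟨0, by rw [h2, pow_zero]⟩
    have key : ∀ c : ZMod m, c ≠ 0 → Link p c ((k : ℕ) : ZMod m) := by
      intro c hc
      by_cases hce : 2 ∣ addOrderOf c
      · exact ⟨hc, h0, Or.inr (Or.inl ⟨hce, by rw [h2]⟩)⟩
      · refine ⟨hc, h0, Or.inr (Or.inr fun t => ?_)⟩
        rw [opp_pw (hodd c hce) t, opp_pw hop t]
    exact (Relation.EqvGen.rel _ _ (key a ha)).trans _ _ _
      (Relation.EqvGen.symm _ _ (Relation.EqvGen.rel _ _ (key b hb)))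
  · have hno : ∀ c : ZMod m, ¬ 2 ∣ addOrderOf c := fun c hc =>
      hme (hc.trans (addOrderOf_dvd_level c))
    refine Relation.EqvGen.rel _ _ ⟨ha, hb, Or.inr (Or.inr fun t => ?_)⟩
    rw [opp_pw (hodd a (hno a)) t, opp_pw (hodd b (hno b)) t]

/-- the degrees in every characteristic, for products of Gauss sums -/
theorem gconcl_good (hp : p.Prime) (hm : 0 < m) (hpm : p.Coprime m) {s : Multiset (ZMod m)}
    (hs : IsGaussTate p m s) (hne : s ≠ 0)
    (h : (∀ a ∈ s, PP (addOrderOf a) ∨ ∃ e : ℕ, addOrderOf a ∣ p ^ e + 1) ∨ PrimesAre m 3 5 ∨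
      PrimesAre m 3 7 ∨ (∃ r : ℕ, r.Prime ∧ r % 8 = 7 ∧ PrimesAre m r r) ∨
      (Odd m ∧ (PrimesAre m 3 11 ∨ PrimesAre m 3 13)) ∨
      ∃ K : ℕ, m / 2 ^ m.factorization 2 ∣ p ^ K + 1) : GConcl p m s := by
  classical
  have hz : NeZero m := ⟨hm.ne'⟩
  obtain ⟨h0, he, hr⟩ := (gt_iff hpm).mp hs
  rcases h with h | h | h | ⟨r, hr1, hr7, h⟩ | ⟨hodd, h⟩ | h
  · refine gauss_parity hp hm hpm h0 he hr hne fun a => ?_
    convert parity_PP hm hpm h0 he hr (fun c hc => ?_) a
    exact h c hc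
  · refine gauss_of_level hp hm hpm h0 he hr hne fun K hK hpK hKm s' hs' hne' => ?_
    exact H916Y.all235 hp (Nat.mul_pos hK hm) (Nat.Coprime.mul_right hpK hpm) (h.mul hKm) hs' hne'
  · refine gauss_of_level hp hm hpm h0 he hr hne fun K hK hpK hKm s' hs' hne' => ?_
    exact H916Y.all237 hp (Nat.mul_pos hK hm) (Nat.Coprime.mul_right hpK hpm) (h.mul hKm) hs' hne'
  · refine gauss_of_level hp hm hpm h0 he hr hne fun K hK hpK hKm s' hs' hne' => ?_
    exact H916Y.allq7 hp (Nat.mul_pos hK hm) (Nat.Coprime.mul_right hpK hpm) hr1 hr7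
      (fun q hq hqd => (h.mul hKm q hq hqd).imp id fun h' => h'.elim id id) hs' hne'
  · have hoddK : ∀ K : ℕ, (∀ q, q.Prime → q ∣ K → q ∣ m) → ¬ 4 ∣ K * m := by
      intro K hKm h4
      have h2 : 2 ∣ K * m := Dvd.dvd.trans (by norm_num) h4
      have h1 : 2 ∣ m := (Nat.prime_two.dvd_mul.mp h2).elim (hKm 2 Nat.prime_two) id
      exact (Nat.not_even_iff_odd.mpr hodd) (even_iff_two_dvd.mpr h1)
    rcases h with h | h
    · refine gauss_of_level hp hm hpm h0 he hr hne fun K hK hpK hKm s' hs' hne' => ?_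
      exact H916Y.all2311 hp (Nat.mul_pos hK hm) (hoddK K hKm) (Nat.Coprime.mul_right hpK hpm)
        (h.mul hKm) hs' hne'
    · refine gauss_of_level hp hm hpm h0 he hr hne fun K hK hpK hKm s' hs' hne' => ?_
      exact H916Y.all2313 hp (Nat.mul_pos hK hm) (hoddK K hKm) (Nat.Coprime.mul_right hpK hpm)
        (h.mul hKm) hs' hne'
  · refine gauss_parity hp hm hpm h0 he hr hne fun a => ?_
    by_cases ha : a = 0
    · rw [Multiset.countP_eq_zero.mpr]
      · exact Even.zero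
      · intro b hb hab
        have h1 : ∀ x y : ZMod m, Relation.EqvGen (Link p) x y → (x = 0 ↔ y = 0) := by
          intro x y hxy
          induction hxy with
          | rel x y hxy => exact iff_of_false hxy.1 hxy.2.1
          | refl x => exact Iff.rfl
          | symm x y _ ih => exact ih.symm
          | trans x y z _ _ ih1 ih2 => exact ih1.trans ih2
        exact h0 (((h1 a b hab).mp ha) ▸ hb)
    · rw [Multiset.countP_eq_card.mpr]
      · exact he
      · exact fun b hb => one_class hm h ha fun hb0 => h0 (hb0 ▸ hb)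

/-- all signs are positive -/
theorem sign_good (hp : p.Prime) (hm : 0 < m) (hpm : p.Coprime m) {S : CycleSystem p}
    (σ : SignSystem S) {s : Multiset (ZMod m)} (hA : S.Alg m s)
    (h : (∀ a ∈ s, PP (addOrderOf a) ∨ ∃ e : ℕ, addOrderOf a ∣ p ^ e + 1) ∨ PrimesAre m 3 5 ∨
      PrimesAre m 3 7 ∨ (∃ r : ℕ, r.Prime ∧ r % 8 = 7 ∧ PrimesAre m r r) ∨
      (Odd m ∧ (PrimesAre m 3 11 ∨ PrimesAre m 3 13)) ∨
      ∃ K : ℕ, m / 2 ^ m.factorization 2 ∣ p ^ K + 1) : σ.sign m s = 1 := by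
  by_cases hne : s = 0
  · rw [hne]
    exact sign_zero σ hm hpm
  · exact sign_of_gconcl hm hpm σ hA (gconcl_good hp hm hpm (S.isTate hm hpm hA) hne h)

/-- all signs are positive, for the characters of Fermat varieties -/
theorem sign_good_fermat (hp : p.Prime) (hm : 0 < m) (hpm : p.Coprime m) {S : CycleSystem p}
    (σ : SignSystem S) {s : Multiset (ZMod m)} (hA : S.Alg m s) (hsum : s.sum = 0) (h4 : ¬ 4 ∣ m)
    (h : PrimesAre m 3 11 ∨ PrimesAre m 3 13) : σ.sign m s = 1 := by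
  by_cases hne : s = 0
  · rw [hne]
    exact sign_zero σ hm hpm
  have hz : NeZero m := ⟨hm.ne'⟩
  have hG := S.isTate hm hpm hA
  have hT : IsTate p m s := ⟨hG.1, hG.2.1, hsum, hG.2.2⟩
  rcases h with h | h
  · exact sign_of_concl hm hpm σ hA (H916Y.all2311 hp hm h4 hpm h hT hne)
  · exact sign_of_concl hm hpm σ hA (H916Y.all2313 hp hm h4 hpm h hT hne)

end Pool.Agent.H547_d
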