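import Pool.Agent.H547_d.SignDefs
import Pool.Agent.H547_d.Main
import Pool.Agent.H547_as.Gen

/-!
# Signs of algebraic classes: the theorems
-/

set_option autoImplicit false

namespace Pool.Agent.H547_d

open Finset Pool.Agent.H916R2 Pool.Agent.H916T Pool.Agent.H916Z Pool.Agent.H547_as
  Pool.Agent.H547_pp

variable {p m : ℕ}

/-- pairs -/
lemma gt_pair [NeZero m] (hpm : p.Coprime m) {a : ZMod m} (ha : a ≠ 0) :
    IsGaussTate p m ({a, -a} : Multiset (ZMod m)) := by
  refine (gt_iff hpm).mpr ⟨?_, by simp, rel0_pair a⟩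
  simp only [Multiset.insert_eq_cons, Multiset.mem_cons, Multiset.mem_singleton, not_or]
  exact ⟨ha.symm, fun h => ha (neg_eq_zero.mp h.symm)⟩

lemma sign_cancel {S : CycleSystem p} (σ : SignSystem S) (hm : 0 < m) (hpm : p.Coprime m)
    (a : ZMod m) {s : Multiset (ZMod m)} (h : S.Alg m (a ::ₘ -a ::ₘ s)) :
    σ.sign m (a ::ₘ -a ::ₘ s) = σ.sign m s := by
  have hz : NeZero m := ⟨hm.ne'⟩
  have hs := S.cancel a hm hpm h
  have ha : a ≠ 0 := fun h0 => (S.isTate hm hpm h).1 (by rw [h0]; exact Multiset.mem_cons_self _ _)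
  have h1 : a ::ₘ -a ::ₘ s = {a, -a} + s := by
    simp only [Multiset.insert_eq_cons, ← Multiset.singleton_add]
    abel
  have hp2 : S.Alg m ({a, -a} : Multiset (ZMod m)) :=
    S.pair hm hpm (gt_pair hpm ha) (by simp)
  rw [h1, σ.join hm hpm hp2 hs, σ.pair hm hpm (gt_pair hpm ha) (by simp), one_mul]

/-- everything in the closure has sign one -/
lemma sign_of_generated {S : CycleSystem p} (σ : SignSystem S) (hm : 0 < m) (hpm : p.Coprime m)
    {t : Multiset (ZMod m)} (h : H916T.Generated m (GBase p m) t) : σ.sign m t = 1 := by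
  have hz : NeZero m := ⟨hm.ne'⟩
  induction h with
  | ofBase s hs =>
    rcases hs with ⟨h1, h2, h3⟩ | h
    · exact σ.pair hm hpm ((gt_iff hpm).mpr ⟨h1, by rw [h2]; exact even_two, h3⟩) h2
    · rcases h with h | ⟨q, hq, hqm, h⟩
      · exact σ.surface hm hpm h
      · exact σ.standard hm hpm hq hqm h
  | pair a ha => exact σ.pair hm hpm (gt_pair hpm ha) (by simp)
  | join s t hs ht ih1 ih2 =>
    rw [σ.join hm hpm (alg_of_generated S hm hpm hs) (alg_of_generated S hm hpm ht), ih1, ih2,
      one_mul]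
  | cancel a s hs ih => rw [← sign_cancel σ hm hpm a (alg_of_generated S hm hpm hs), ih]

lemma sign_zero {S : CycleSystem p} (σ : SignSystem S) (hm : 0 < m) (hpm : p.Coprime m) :
    σ.sign m 0 = 1 := by
  have h := σ.join hm hpm (S.empty hm hpm) (S.empty hm hpm)
  rw [add_zero] at h
  exact (mul_eq_left.mp h.symm)

lemma sign_cancel_all {S : CycleSystem p} (σ : SignSystem S) (hm : 0 < m) (hpm : p.Coprime m)
    (v : Multiset (ZMod m)) : ∀ x : Multiset (ZMod m), S.Alg m (x + v + v.map Neg.neg) →
      σ.sign m (x + v + v.map Neg.neg) = σ.sign m x := by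
  induction v using Multiset.induction_on with
  | empty => intro x _; simp
  | cons a v ih =>
    intro x h
    have h1 : x + (a ::ₘ v) + (a ::ₘ v).map Neg.neg = a ::ₘ -a ::ₘ (x + v + v.map Neg.neg) := by
      rw [Multiset.map_cons]
      simp only [← Multiset.singleton_add]
      abel
    rw [h1] at h ⊢
    rw [sign_cancel σ hm hpm a h, ih x (S.cancel a hm hpm h)]

/-- the sign of an algebraic character with even numbers -/
lemma sign_of_even (hp : p.Prime) (hm : 0 < m) (hpm : p.Coprime m) {S : CycleSystem p}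
    (σ : SignSystem S) {u : Multiset (ZMod m)} (hA : S.Alg m u) (h : SamePar p u 0) :
    σ.sign m u = 1 := by
  classical
  have hz : NeZero m := ⟨hm.ne'⟩
  have hu := (gt_iff hpm).mp (S.isTate hm hpm hA)
  by_cases hu0 : u = 0
  · rw [hu0]
    exact sign_zero σ hm hpm
  obtain ⟨N, hN, hpN, H⟩ := gauss_parity hp hm hpm hu.1 hu.2.1 hu.2.2 hu0 (by
    intro a
    have h1 := h a
    rw [Multiset.countP_zero] at h1
    exact h1.mpr Even.zero)
  rw [← σ.raise hm hpm hN hpN hA]
  exact sign_of_generated σ (Nat.mul_pos hN hm) (Nat.Coprime.mul_right hpN hpm) (H (N * m) rfl)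

/-- **The sign depends only on parities.** -/
theorem sign_of_samePar (hp : p.Prime) (hm : 0 < m) (hpm : p.Coprime m) {S : CycleSystem p}
    (σ : SignSystem S) {s s' : Multiset (ZMod m)} (hA : S.Alg m s) (hA' : S.Alg m s')
    (h : SamePar p s s') : σ.sign m s = σ.sign m s' := by
  classical
  have hz : NeZero m := ⟨hm.ne'⟩
  have hs := (gt_iff hpm).mp (S.isTate hm hpm hA)
  have hneg : SamePar p (s.map Neg.neg) s := samePar_map hs.1 fun a ha => H547_pp.link_neg ha
  have hAn := alg_neg hp hm hpm S hA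
  have h1 : σ.sign m (s' + s.map Neg.neg) = 1 := by
    refine sign_of_even hp hm hpm σ (S.join hm hpm hA' hAn) fun a => ?_
    rw [Multiset.countP_add, Multiset.countP_zero, Nat.even_add]
    exact iff_of_true ((h a).symm.trans (hneg a).symm) Even.zero
  have h2 : σ.sign m (s + s.map Neg.neg) = 1 := by
    have h3 := sign_cancel_all σ hm hpm s 0 (by
      rw [zero_add]; exact S.join hm hpm hA hAn)
    rw [zero_add] at h3
    rw [h3, sign_zero σ hm hpm]
  rw [σ.join hm hpm hA' hAn] at h1
  rw [σ.join hm hpm hA hAn] at h2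
  exact mul_right_cancel (h2.trans h1.symm)

/-- the parity vectors of the algebraic characters -/
noncomputable def algSpace (S : CycleSystem p) (hm : 0 < m) (hpm : p.Coprime m) {Q : Type}
    (cl : ZMod m → Q) : Submodule (ZMod 2) (Q → ZMod 2) where
  carrier := {e | ∃ s : Multiset (ZMod m), S.Alg m s ∧ par cl s = e}
  zero_mem' := ⟨0, S.empty hm hpm, par_zero cl⟩
  add_mem' := by
    rintro _ _ ⟨s, hs, rfl⟩ ⟨t, ht, rfl⟩
    exact ⟨s + t, S.join hm hpm hs ht, par_add cl s t⟩
  smul_mem' := by
    rintro c _ ⟨s, hs, rfl⟩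
    have hc : ∀ c : ZMod 2, c = 0 ∨ c = 1 := by decide
    rcases hc c with rfl | rfl
    · rw [zero_smul]
      exact ⟨0, S.empty hm hpm, par_zero cl⟩
    · rw [one_smul]
      exact ⟨s, hs, rfl⟩

/-- **At most `c - 1` signs.** -/
theorem exists_sign_generators (S : CycleSystem p) (hm : 0 < m) (hpm : p.Coprime m) {Q : Type}
    [Fintype Q] (cl : ZMod m → Q) (T : Set Q) (hT : ∀ a, a ≠ 0 → cl a ∈ T) :
    ∃ E : Finset (Multiset (ZMod m)), E.card ≤ T.ncard - 1 ∧ (∀ u ∈ E, S.Alg m u) ∧
      ∀ s : Multiset (ZMod m), S.Alg m s → ∃ F ⊆ E, par cl (s + ∑ u ∈ F, u) = 0 := by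
  classical
  have hz : NeZero m := ⟨hm.ne'⟩
  let b := Module.finBasis (ZMod 2) (algSpace S hm hpm cl)
  have hu : ∀ i, ∃ u : Multiset (ZMod m), S.Alg m u ∧ par cl u = (b i).1 := fun i => (b i).2
  choose u hGT hpar using hu
  have huinj : Function.Injective u := by
    intro i j hij
    apply b.injective
    apply Subtype.ext
    rw [← hpar i, ← hpar j, hij]
  have hle : algSpace S hm hpm cl ≤ parSpace p cl := by
    rintro _ ⟨s, hs, rfl⟩
    exact ⟨s, (gt_iff hpm).mp (S.isTate hm hpm hs), rfl⟩
  refine ⟨univ.image u, ?_, ?_, ?_⟩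
  · refine card_image_le.trans ?_
    rw [card_univ, Fintype.card_fin]
    exact (Submodule.finrank_mono hle).trans (finrank_le cl T hT)
  · intro v hv
    obtain ⟨i, _, rfl⟩ := mem_image.mp hv
    exact hGT i
  · intro s hs
    let e : algSpace S hm hpm cl := ⟨par cl s, s, hs, rfl⟩
    let J := univ.filter fun i => b.repr e i ≠ 0
    refine ⟨J.image u, image_subset_image (subset_univ _), ?_⟩
    rw [sum_image (fun i _ j _ h => huinj h)]
    rw [par_add]
    have h1 : par cl (∑ i ∈ J, u i) = ∑ i ∈ J, (b i).1 := by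
      have : ∀ F : Finset (Fin (Module.finrank (ZMod 2) (algSpace S hm hpm cl))),
          par cl (∑ i ∈ F, u i) = ∑ i ∈ F, (b i).1 := by
        intro F
        induction F using Finset.induction_on with
        | empty => simpa using par_zero cl
        | insert i F hi ih => rw [sum_insert hi, sum_insert hi, par_add, ih, hpar]
      exact this J
    have h2 : par cl s = ∑ i ∈ J, (b i).1 := by
      have h3 := b.sum_repr e
      have h4 : (∑ i, b.repr e i • b i : algSpace S hm hpm cl) = ∑ i ∈ J, b i := by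
        rw [← sum_filter_add_sum_filter_not univ (fun i => b.repr e i ≠ 0)]
        have h5 : ∑ i ∈ univ.filter (fun i => ¬ b.repr e i ≠ 0), b.repr e i • b i = 0 := by
          refine sum_eq_zero fun i hi => ?_
          rw [mem_filter, not_not] at hi
          rw [hi.2, zero_smul]
        rw [h5, add_zero]
        refine sum_congr rfl fun i hi => ?_
        rw [mem_filter] at hi
        have hc : ∀ c : ZMod 2, c ≠ 0 → c = 1 := by decide
        rw [hc _ hi.2, one_smul]
      rw [h4] at h3
      have h6 := congrArg (fun x : algSpace S hm hpm cl => x.1) h3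
      simp only [Submodule.coe_sum] at h6
      exact h6.symm
    rw [h1, h2]
    funext C
    have : ∀ z : ZMod 2, z + z = 0 := by decide
    exact this _

end Pool.Agent.H547_d
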