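import Pool.Agent.H547_d.Defs

/-!
# Signs of algebraic classes
-/

set_option autoImplicit false

namespace Pool.Agent.H547_d

open Finset Pool.Agent.H916T

/-- The signs of the intersection forms on the lines of the algebraic characters. The form
`(-1) ^ i * deg (x * conj y)` on the complexification of the space of the numerical classes of
codimension `i` on the product of the curves `y ^ p - y = x ^ m`, one for each of the `2 * i` elements of
`s`, is positive or negative on the line of the character `s`. The fields of the structure are known
theorems. -/
structure SignSystem {p : ℕ} (S : CycleSystem p) where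
  /-- the sign -/
  sign : (m : ℕ) → Multiset (ZMod m) → ℤˣ
  /-- The theorem of the Hodge index, for products of two curves. -/
  pair : ∀ {m : ℕ} {s : Multiset (ZMod m)}, 0 < m → p.Coprime m → IsGaussTate p m s →
    Multiset.card s = 2 → sign m s = 1
  /-- The theorem of the Hodge index, for Fermat surfaces. -/
  surface : ∀ {m : ℕ} {s : Multiset (ZMod m)}, 0 < m → p.Coprime m → SurfaceTate p m s →
    sign m s = 1
  /-- The standard cycles lift to characteristic zero, where the Hodge-Riemann relations hold. -/
  standard : ∀ {m q : ℕ} {s : Multiset (ZMod m)}, 0 < m → p.Coprime m → q.Prime → q ∣ m →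
    Standard q m s → sign m s = 1
  /-- External products. -/
  join : ∀ {m : ℕ} {s t : Multiset (ZMod m)}, 0 < m → p.Coprime m → S.Alg m s → S.Alg m t →
    sign m (s + t) = sign m s * sign m t
  /-- Pull back for the map `x ↦ x ^ N` between the curves. -/
  raise : ∀ {m N : ℕ} {s : Multiset (ZMod m)}, 0 < m → p.Coprime m → 0 < N → p.Coprime N →
    S.Alg m s → sign (N * m) (s.map fun a => ((N * a.val : ℕ) : ZMod (N * m))) = sign m s

end Pool.Agent.H547_d
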